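import Mathlib

namespace Pool.Agent.Results.MP_69f562_co.UpperSqrt

open Finset

/-- A line of the plane. -/
def IsLine (s : Set (ℝ × ℝ)) : Prop :=
  ∃ a b c : ℝ, (a ≠ 0 ∨ b ≠ 0) ∧ s = {p | a * p.1 + b * p.2 = c}

/-- A generic arrangement: lines, any two meet in exactly one point, no three share a point. -/
def Generic {n : ℕ} (L : Fin n → Set (ℝ × ℝ)) : Prop :=
  (∀ i, IsLine (L i)) ∧ (∀ i j, i ≠ j → ∃! p, p ∈ L i ∧ p ∈ L j) ∧
    ∀ i j k, i ≠ j → j ≠ k → i ≠ k → ¬ ∃ p, p ∈ L i ∧ p ∈ L j ∧ p ∈ L k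

/-- `T` is a triple of lines and the triangle it bounds has area `A`. -/
def HasArea {n : ℕ} (L : Fin n → Set (ℝ × ℝ)) (T : Finset (Fin n)) (A : ℝ) : Prop :=
  ∃ i j k, i ≠ j ∧ j ≠ k ∧ i ≠ k ∧ T = {i, j, k} ∧ ∃ p q r : ℝ × ℝ,
    p ∈ L i ∧ p ∈ L j ∧ q ∈ L j ∧ q ∈ L k ∧ r ∈ L i ∧ r ∈ L k ∧
    A = |(q.1 - p.1) * (r.2 - p.2) - (q.2 - p.2) * (r.1 - p.1)| / 2

/-- Different triples of lines from `S` bound triangles of different areas. -/
def DistinctAreas {n : ℕ} (L : Fin n → Set (ℝ × ℝ)) (S : Finset (Fin n)) : Prop :=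
  ∀ T ⊆ S, ∀ T' ⊆ S, ∀ A, HasArea L T A → HasArea L T' A → T = T'

section proof

def tg (n : ℕ) (i : Fin n) : Set (ℝ × ℝ) :=
  {p | (2 * (i.val : ℝ)) * p.1 + (-1) * p.2 = (i.val : ℝ) ^ 2}

noncomputable def pt {n : ℕ} (i j : Fin n) : ℝ × ℝ := (((i.val : ℝ) + j.val) / 2, (i.val : ℝ) * j.val)

lemma m1 {n : ℕ} (i j : Fin n) : pt i j ∈ tg n i := by
  simp only [tg, pt, Set.mem_ofPred_eq]; ring

lemma m2 {n : ℕ} (i j : Fin n) : pt i j ∈ tg n j := by
  simp only [tg, pt, Set.mem_ofPred_eq]; ring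

lemma cast_ne {n : ℕ} {i j : Fin n} (h : i ≠ j) : (i.val : ℝ) - j.val ≠ 0 :=
  sub_ne_zero.2 fun e => h (Fin.ext (by exact_mod_cast e))

lemma uniq {n : ℕ} {i j : Fin n} (h : i ≠ j) {p : ℝ × ℝ} (h1 : p ∈ tg n i) (h2 : p ∈ tg n j) :
    p = pt i j := by
  simp only [tg, Set.mem_ofPred_eq] at h1 h2
  have e : p.1 = ((i.val : ℝ) + j.val) / 2 :=
    mul_left_cancel₀ (cast_ne h) (by linear_combination (h1 - h2) / 2)
  refine Prod.ext e ?_
  simp only [pt]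
  rw [e] at h1
  linear_combination -h1

end proof

theorem result (n : ℕ) : ∃ L : Fin n → Set (ℝ × ℝ), Generic L ∧
    ∀ S : Finset (Fin n), DistinctAreas L S → S.card * (S.card - 1) ≤ 4 * (n - 1) := by
  refine ⟨tg n, ⟨fun i => ⟨_, _, _, Or.inr (by norm_num), rfl⟩,
    fun i j h => ⟨pt i j, ⟨m1 i j, m2 i j⟩, fun p hp => uniq h hp.1 hp.2⟩, ?_⟩, fun S hS => ?_⟩
  · rintro i j k hij hjk hik ⟨p, h1, h2, h3⟩
    have e := congrArg Prod.fst ((uniq hij h1 h2).symm.trans (uniq hik h1 h3))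
    simp only [pt] at e
    exact cast_ne hjk (by linarith)
  have key := card_le_mul_card_image_of_maps_to (s := S.offDiag)
    (t := (Ioo (-(n : ℤ)) n).erase 0) (f := fun x => (x.2.val : ℤ) - x.1.val) (fun x hx => by
      have h1 := (mem_offDiag.1 hx).2.2
      have h2 : x.1.val ≠ x.2.val := fun e => h1 (Fin.ext e)
      have := x.1.2
      have := x.2.2
      simp only [mem_erase, mem_Ioo]
      omega) 2 (fun d hd => by
      by_contra hc
      obtain ⟨⟨x1, y1⟩, ⟨x2, y2⟩, ⟨x3, y3⟩, a1, a2, a3, n12, n13, n23⟩ :=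
        two_lt_card_iff.1 (not_le.1 hc)
      simp only [mem_filter, mem_offDiag] at a1 a2 a3
      simp only [ne_eq, Prod.mk.injEq, Fin.ext_iff] at n12 n13 n23
      have hd0 := (mem_erase.1 hd).1
      have r1 : (y1.val : ℝ) = x1.val + d := by exact_mod_cast (by omega : (y1.val : ℤ) = x1.val + d)
      have r2 : (y2.val : ℝ) = x2.val + d := by exact_mod_cast (by omega : (y2.val : ℤ) = x2.val + d)
      have r3 : (y3.val : ℝ) = x3.val + d := by exact_mod_cast (by omega : (y3.val : ℤ) = x3.val + d)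
      have hT := hS {x1, x2, x3} (by simp [insert_subset_iff, a1.1.1, a2.1.1, a3.1.1])
        {y1, y2, y3} (by simp [insert_subset_iff, a1.1.2.1, a2.1.2.1, a3.1.2.1]) _
        ⟨x1, x2, x3, by rw [ne_eq, Fin.ext_iff]; omega, by rw [ne_eq, Fin.ext_iff]; omega,
          by rw [ne_eq, Fin.ext_iff]; omega, rfl, pt x1 x2, pt x2 x3, pt x1 x3,
          m1 _ _, m2 _ _, m1 _ _, m2 _ _, m1 _ _, m2 _ _, rfl⟩
        ⟨y1, y2, y3, by rw [ne_eq, Fin.ext_iff]; omega, by rw [ne_eq, Fin.ext_iff]; omega,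
          by rw [ne_eq, Fin.ext_iff]; omega, rfl, pt y1 y2, pt y2 y3, pt y1 y3,
          m1 _ _, m2 _ _, m1 _ _, m2 _ _, m1 _ _, m2 _ _, by
            simp only [pt, r1, r2, r3]; congr 2; ring⟩
      have b1 : x1 ∈ ({y1, y2, y3} : Finset (Fin n)) := hT ▸ by simp
      have b2 : x2 ∈ ({y1, y2, y3} : Finset (Fin n)) := hT ▸ by simp
      have b3 : x3 ∈ ({y1, y2, y3} : Finset (Fin n)) := hT ▸ by simp
      simp only [mem_insert, mem_singleton, Fin.ext_iff] at b1 b2 b3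
      omega)
  rw [offDiag_card] at key
  rcases Nat.eq_zero_or_pos n with rfl | hn
  · have : S = ∅ := Subsingleton.elim _ _
    simp [this]
  rw [card_erase_of_mem (by simp; omega), Int.card_Ioo] at key
  rw [Nat.mul_sub_one]
  omega

end Pool.Agent.Results.MP_69f562_co.UpperSqrt
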